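import Pool.Agent.K9h33.BL.Props

/-!
MP_c7af3c_ag, Q1: the conjecture of Lang, that a projective variety is groupless if and only if it is
arithmetically hyperbolic, holds for a complete intersection of generic members of linear systems if
and only if it holds for its part in the base locus. The base locus can be an arbitrary projective
variety.

Let `K` be an algebraically closed field of characteristic `0`, and let `k` be a field contained in
`K`. Let `V` be a closed subset of projective space, defined over `k`, of dimension at most `m`. For
`a` in a finite set `A` let `Λ_a = R_a + span (P_a,j)_j` be a linear system of hypersurfaces of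
degree `d_a`: here `R_a` and the `P_a,j` are arbitrary forms of degree `d_a` over `k`, for instance
`R_a = 0`. Let `F_a = R_a + ∑_j t_a,j P_a,j` be a generic member of `Λ_a`: the coefficients `t_a,j`
are, for all `a` and `j` together, algebraically independent over `k`. Let `X` be the intersection of
`V` and of the hypersurfaces `F_a = 0`. (For `k` countable and `K` uncountable this is the case for
all very general members of the linear systems.)

For each `a`, fix a number `e_a`. The *base locus* `B_a` consists of the common zeros of the forms
`G` of degree `d_a - e_a` over `k` such that all products of `G` and of forms of degree `e_a` are in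
the span of the `P_a,j` (`Mul`). Let `Z` be the intersection of `X` and of the union of the `B_a`.
Examples:
* `R_a = 0`, and the `P_a,j` span the forms of degree `d_a` in a homogeneous ideal `I` which is
  generated by forms of degree at most `d_a - e_a`, the same ideal for all `a`: so `X` is a generic
  complete intersection, in `V`, containing the closed subset `Y` given by `I`. Then all `B_a` are
  equal to `Y`, and `Z` is the intersection of `V` and `Y`. So `Z` can be any given projective variety
  over `k`;
* `G` a form of degree `d - e`, `R` arbitrary, and the `P_j` the products of `G` and of the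
  monomials of degree `e`: then `X` is a generic deformation `R + G H = 0` of the hypersurface `R = 0`
  relative to `G = 0`, and `Z` is given by `R = G = 0`.

Suppose that `∑ (e_a + 1) ≥ 2 m + 2`. Then `X` has outside of `Z` only finitely many points over each
field generated by finitely many elements of `K` over the algebraic closure of `k`, (1), and for each
nonconstant morphism `f` from a smooth projective curve of genus `g` to `X` whose image is not
contained in `Z`, `(∑ (e_a + 1) - 2 m) deg f ≤ 2 g - 2`, (2). So (3) `X` is algebraically hyperbolic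
if and only if `Z` is, (4) the degrees of the morphisms from each curve to `X` are bounded if and only
if this holds for `Z`, (5) all morphisms from curves of genus at most one to `X` are constant if and
only if this holds for `Z`, (6) `X` is arithmetically hyperbolic if and only if `Z` is, and (7) `X`
has only finitely many points over each finitely generated field if and only if this holds for `Z`.

`X` is groupless if and only if `Z` is: if `φ` is a nonconstant morphism from an abelian variety to
`X`, whose image is not contained in `Z`, then after a translation `φ 0` is not in `Z`, and the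
composite of `φ`, of the multiplications by the natural numbers, and of a morphism to the abelian
variety from a smooth projective curve, through `0`, on which `φ` is not constant, would be
morphisms of unbounded degree from this curve to `X`, whose images are not contained in `Z`; this
contradicts (2).

The definitions are in `Pool/Agent/K9h33/BL/Props.lean`. A closed subset `S` of projective space is
given by the vectors of homogeneous coordinates of its points over the extension fields of `K`; a
curve is given by its function field `L`, a morphism from the curve by its homogeneous coordinates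
`f`, its degree is `pht K f`, and `canDeg K L = 2 g - 2`. (6) is the property of the question: for a
subring `A` of `K`, the vectors `x` for which there is a vector `y` with `x_i y_j ∈ A` for all
`i, j` and `∑ x_i y_i = 1` are the vectors of the coordinates of the points of projective space over
the ring `A` (`RingPoints`); if `A` contains the coefficients of equations of `S`, then the points in
`S` are the points over `A` of a model of `S`; and every model of `S` becomes isomorphic to this
model over a finitely generated ring.
-/

set_option autoImplicit false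

namespace Pool.Agent.Results.MP_c7af3c_ag.BaseLocus

open MvPolynomial FF Pool.Agent.W603.LV Pool.Agent.W603.PV Pool.Agent.TH145.MG
  LinearAlgebra.Projectivization
open Pool.Agent.K9h33.BL

section defs

variable {k K : Type} [Field k] [Field K] [Algebra k K] {n : ℕ} {A : Type}
  {J : A → Type} [∀ a, Fintype (J a)]

/-- `X`: the intersection of `V` and of the hypersurfaces `F_a = 0`, where
`F_a = R_a + ∑_j t_a,j P_a,j` (`Mem R P t a`). -/
def SetX (V : Set (MvPolynomial (Fin (n + 1)) k)) (R : A → MvPolynomial (Fin (n + 1)) k)
    (P : ∀ a, J a → MvPolynomial (Fin (n + 1)) k) (t : ∀ a, J a → K) : Closed K n :=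
  fun _ _ _ => {x | (∀ f ∈ V, aeval x (map (algebraMap k K) f) = 0) ∧
    ∀ a, aeval x (Mem R P t a) = 0}

/-- `Z`: the points `x` of `X` such that, for some `a`, all `G` in `Mul (d a) (e a) (P a)` vanish at
`x`. -/
def SetZ (d e : A → ℕ) (V : Set (MvPolynomial (Fin (n + 1)) k))
    (R : A → MvPolynomial (Fin (n + 1)) k)
    (P : ∀ a, J a → MvPolynomial (Fin (n + 1)) k) (t : ∀ a, J a → K) : Closed K n :=
  fun L _ _ => {x | x ∈ SetX V R P t L ∧ ∃ a, ∀ G ∈ Mul (d a) (e a) (P a),
    aeval x (map (algebraMap k K) G) = 0}

end defs

theorem result {k K : Type} [Field k] [Field K] [IsAlgClosed K] [CharZero K] [Algebra k K]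
    {n m : ℕ}
    -- a closed subset of projective space, of dimension at most `m`
    (V : Set (MvPolynomial (Fin (n + 1)) k)) (hVh : ∀ f ∈ V, ∃ c, f.IsHomogeneous c)
    (hV : DimLE k V m)
    {A : Type} [Fintype A] (d e : A → ℕ) (hS : 2 * m + 2 ≤ ∑ a, (e a + 1))
    -- the linear systems
    (R : A → MvPolynomial (Fin (n + 1)) k) (hR : ∀ a, (R a).IsHomogeneous (d a))
    {J : A → Type} [∀ a, Fintype (J a)] (P : ∀ a, J a → MvPolynomial (Fin (n + 1)) k)
    (hP : ∀ a j, (P a j).IsHomogeneous (d a))
    -- generic coefficients
    (t : ∀ a, J a → K) (ht : AlgebraicIndependent k fun p : (a : A) × J a => t p.1 p.2) :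
    -- (1) the points of `X` outside of `Z`
    (∀ T : Finset K, {p : ℙ K (Fin (n + 1) → K) | ∃ x ∈ SetX V R P t K, x ∉ SetZ d e V R P t K ∧
      (∀ i, x i ∈ IntermediateField.adjoin (algebraicClosure k K) (T : Set K)) ∧
      ∃ hx : x ≠ 0, p = Projectivization.mk K x hx}.Finite) ∧
    -- (2) the curves in `X` that are not contained in `Z`
    (∀ (L : Type) [Field L] [Algebra K L] [IsFF K L], ∀ x ∈ SetX V R P t L,
      x ∉ SetZ d e V R P t L →
      (∃ i j, x j ≠ 0 ∧ x i / x j ∉ Set.range (algebraMap K L)) →
      (((∑ a, (e a + 1) : ℕ) : ℤ) - 2 * m) * pht K x ≤ canDeg K L) ∧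
    -- (3), (4), (5), (6), (7)
    (AlgHyp (SetX V R P t) ↔ AlgHyp (SetZ d e V R P t)) ∧
    (Bounded (SetX V R P t) ↔ Bounded (SetZ d e V R P t)) ∧
    (GenusOne (SetX V R P t) ↔ GenusOne (SetZ d e V R P t)) ∧
    (ArithHyp (SetX V R P t) ↔ ArithHyp (SetZ d e V R P t)) ∧
    (Mordellic (SetX V R P t) ↔ Mordellic (SetZ d e V R P t)) := by
  classical
  have hout : ∀ {L : Type} [Field L] [Algebra K L] (x : Fin (n + 1) → L), x ∈ SetX V R P t L →
      x ∉ SetZ d e V R P t L →
      ∀ a, ∃ G ∈ Mul (d a) (e a) (P a), aeval x (map (algebraMap k K) G) ≠ 0 := by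
    intro L _ _ x hx hxZ a
    by_contra hcon
    push Not at hcon
    exact hxZ ⟨hx, a, hcon⟩
  have hpts : ∀ T : Finset K, {p : ℙ K (Fin (n + 1) → K) | ∃ x ∈ SetX V R P t K,
      x ∉ SetZ d e V R P t K ∧
      (∀ i, x i ∈ IntermediateField.adjoin (algebraicClosure k K) (T : Set K)) ∧
      ∃ hx : x ≠ 0, p = Projectivization.mk K x hx}.Finite := by
    intro T
    refine (pts_all hS V hVh hV R hR P hP t ht T).subset ?_
    rintro p ⟨x, hx, hxZ, hxT, hx0, hp⟩
    refine ⟨x, ⟨fun f hf => ?_, hx.2, fun a => ?_⟩, hxT, hx0, hp⟩
    · have h1 := hx.1 f hf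
      rwa [aeval_map_algebraMap] at h1
    · obtain ⟨G, hG, hGx⟩ := hout x hx hxZ a
      exact ⟨G, hG, by rwa [aeval_map_algebraMap] at hGx⟩
  have hcrv : ∀ (L : Type) [Field L] [Algebra K L] [IsFF K L], ∀ x ∈ SetX V R P t L,
      x ∉ SetZ d e V R P t L →
      (∃ i j, x j ≠ 0 ∧ x i / x j ∉ Set.range (algebraMap K L)) →
      (((∑ a, (e a + 1) : ℕ) : ℤ) - 2 * m) * pht K x ≤ canDeg K L :=
    fun L _ _ _ x hx hxZ hxn => crv_all V hVh hV R hR P hP t ht x hxn hx.1 hx.2 (hout x hx hxZ)
  have hZX : ∀ (L : Type) [Field L] [Algebra K L], SetZ d e V R P t L ⊆ SetX V R P t L :=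
    fun L _ _ x hx => hx.1
  have hq : (1 : ℤ) ≤ ((∑ a, (e a + 1) : ℕ) : ℤ) - 2 * m := by
    have h1 : ((2 * m + 2 : ℕ) : ℤ) ≤ ((∑ a, (e a + 1) : ℕ) : ℤ) := by exact_mod_cast hS
    push_cast at h1 ⊢
    linarith
  have hMh : ∀ a, (Mem R P t a).IsHomogeneous (d a) := by
    intro a
    refine ((hR a).map _).add (IsHomogeneous.sum _ _ _ fun j _ => ?_)
    have := (isHomogeneous_C (Fin (n + 1)) (t a j)).mul ((hP a j).map (algebraMap k K))
    rwa [zero_add] at this
  have hXs : ∀ (x : Fin (n + 1) → K) (c : K), x ∈ SetX V R P t K → c • x ∈ SetX V R P t K := by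
    intro x c hx
    refine ⟨fun f hf => ?_, fun a => ?_⟩
    · obtain ⟨q, hq⟩ := hVh f hf
      rw [aeval_smul (hq.map _), hx.1 f hf, mul_zero]
    · rw [aeval_smul (hMh a), hx.2 a, mul_zero]
  obtain ⟨h3, h4, h5⟩ := compare_curves hZX hq hcrv
  obtain ⟨h6, h7⟩ := compare_points hZX (fun x c _ hx => hXs x c hx) (fun x c hc hx => by
    have h1 : x = c⁻¹ • (c • x) := by rw [smul_smul, inv_mul_cancel₀ hc, one_smul]
    refine ⟨by rw [h1]; exact hXs _ _ hx.1, ?_⟩
    obtain ⟨-, a, ha⟩ := hx
    refine ⟨a, fun G hG => ?_⟩
    obtain ⟨q, -, hq, -⟩ := id hG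
    have h2 := ha G hG
    rw [aeval_smul (hq.map _)] at h2
    exact (mul_eq_zero.1 h2).resolve_left (pow_ne_zero _ hc)) (fun T => by
    refine (hpts T).subset ?_
    rintro p ⟨x, hx, hxZ, hxT, hx0, hp⟩
    refine ⟨x, hx, hxZ, fun i => ?_, hx0, hp⟩
    have h1 : Subfield.closure (T : Set K) ≤
        (IntermediateField.adjoin (algebraicClosure k K) (T : Set K)).toSubfield := by
      rw [Subfield.closure_le]
      exact IntermediateField.subset_adjoin _ _
    exact h1 (hxT i))
  exact ⟨hpts, hcrv, h3, h4, h5, h6, h7⟩

end Pool.Agent.Results.MP_c7af3c_ag.BaseLocus
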