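import Mathlib
import Pool.Agent.K9h5.C.Ex
import Pool.Agent.K9h5.N.Grow
import Pool.Agent.K9h5.G.Top

/-!
# Rational points on groupless covers of products of elliptic curves over all number fields

`A = E_1 × ... × E_r` is a product of elliptic curves `E_i : y ^ 2 = x ^ 3 + a_i x + b_i` over `ℚ`,
and `n ≥ 2`. The hypersurfaces `G_0 w ^ n + G_1 v ^ n = 0`, whose coefficients `G_0`, `G_1` are
multihomogeneous of degrees `d_i`, `d_i + n c_i` in the coordinates of `E_i`, form an affine space: for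
`c = 0` they are hypersurfaces in `A × ℙ ^ 1`, for `d = 0` and `G_0 = 1` the cyclic covers
`w ^ n = - G_1` of `A`. There is a proper closed subset `Z` of this space which contains no complex
hypersurface that is ramified in the direction of some `E_j`, and, if `n` is squarefree, no groupless
complex hypersurface, such that the following holds for every number field `K`, for all subgroups `Γ_i`
of `E_i(K)` with ranks at least `R`, and for all hypersurfaces over `K` outside of `Z`: of the tuples `P`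
in `Γ_1 × ... × Γ_r` with heights at most `B`, only a proportion of `O (B ^ (1 - 49 R / 1000))` is below
a `K`-point of the hypersurface. For `Γ_i = E_i(K)` and all number fields `K` which contain a certain
number field `κ_M`, the proportion is `O (B ^ (-M))`. The conjecture predicts that a groupless
hypersurface has only finitely many points over each number field.
-/

set_option autoImplicit false
set_option linter.all false

namespace Pool.Agent.Results.MP_c7af3c_ag.GrouplessCoversAllFields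

open WeierstrassCurve

/-- the group of `K`-points of the elliptic curve `y ^ 2 = x ^ 3 + a x + b` -/
abbrev E (K : Type) [Field K] (a b : ℤ) : Type :=
  (⟨0, 0, 0, (a : K), (b : K)⟩ : WeierstrassCurve K).toAffine.Point

/-- homogeneous coordinates: `(0 : 1 : 0)` for the point at infinity, `(x : y : 1)` otherwise -/
def xyz {K : Type} [Field K] {a b : ℤ} : E K a b → Fin 3 → K
  | Affine.Point.zero => ![0, 1, 0]
  | Affine.Point.some x y _ => ![x, y, 1]

/-- the logarithmic height, relative to `K`, of the `x`-coordinate of a point -/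
noncomputable def ht {K : Type} [Field K] [NumberField K] {a b : ℤ} : E K a b → ℝ
  | Affine.Point.zero => 0
  | Affine.Point.some x _ _ => Height.logHeight₁ x

/-- The coefficients `G_0` and `G_1` are homogeneous of degrees `d_i` and `d_i + n c_i` in the
coordinates of the `i`-th curve, for each `i`. -/
def Multihomogeneous {r : ℕ} {R : Type} [CommRing R] (n : ℕ)
    (G : Fin 2 → MvPolynomial (Fin r × Fin 3) R) (c d : Fin r → ℕ) : Prop :=
  ∀ i, (G 0).IsWeightedHomogeneous (fun v => if v.1 = i then 1 else 0) (d i) ∧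
    (G 1).IsWeightedHomogeneous (fun v => if v.1 = i then 1 else 0) (d i + n * c i)

/-- the hypersurface `G_0 w ^ n + G_1 v ^ n = 0` has a point `(w : v)` over the tuple `V` of
coordinates -/
def HasPoint {K : Type} [Field K] {r : ℕ} (n : ℕ) (G : Fin 2 → MvPolynomial (Fin r × Fin 3) K)
    (V : Fin r → Fin 3 → K) : Prop :=
  ∃ w v : K, (w ≠ 0 ∨ v ≠ 0) ∧
    MvPolynomial.aeval (fun u : Fin r × Fin 3 => V u.1 u.2) (G 0) * w ^ n +
      MvPolynomial.aeval (fun u : Fin r × Fin 3 => V u.1 u.2) (G 1) * v ^ n = 0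

/-- The closed set `Z` in the space of the coefficients is the set of the common zeros of finitely
many integral polynomials, whose variables are the pairs of an index `k` and a monomial; the
hypersurface `G` is outside of it. -/
def Off {r : ℕ} {R : Type} [CommRing R]
    (Z : Finset (MvPolynomial (Fin 2 × (Fin r × Fin 3 →₀ ℕ)) ℤ))
    (G : Fin 2 → MvPolynomial (Fin r × Fin 3) R) : Prop :=
  ∃ φ ∈ Z, MvPolynomial.aeval
    (fun x : Fin 2 × (Fin r × Fin 3 →₀ ℕ) => (G x.1).coeff x.2) φ ≠ 0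

/-- The complex hypersurface `G_0 w ^ n + G_1 v ^ n = 0` is ramified in the direction of the `j`-th
factor: there are complex points `V_i = (x_i, y_i)` on the other factors and a formal arc `W` in the
`j`-th factor along which `G_1 G_0 ^ (n - 1)` has a finite order `m` which is not divisible by some
prime divisor `l` of `n`. -/
def Ramified {r : ℕ} (n : ℕ) (a b : Fin r → ℤ) (G : Fin 2 → MvPolynomial (Fin r × Fin 3) ℂ)
    (j : Fin r) : Prop :=
  ∃ (V : Fin r → Fin 3 → ℂ) (W : Fin 3 → PowerSeries ℂ) (m l : ℕ),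
    (∀ i, i ≠ j → V i 2 = 1 ∧ V i 1 ^ 2 = V i 0 ^ 3 + a i * V i 0 + b i) ∧
    W ≠ 0 ∧ W 1 ^ 2 * W 2 = W 0 ^ 3 + (a j : PowerSeries ℂ) * W 0 * W 2 ^ 2 +
      (b j : PowerSeries ℂ) * W 2 ^ 3 ∧
    (MvPolynomial.aeval (fun v : Fin r × Fin 3 =>
      if v.1 = j then W v.2 else PowerSeries.C (V v.1 v.2)) (G 1 * G 0 ^ (n - 1))).order = m ∧
    l.Prime ∧ l ∣ n ∧ ¬ l ∣ m

/-- Every morphism from an elliptic curve `y ^ 2 = x ^ 3 + s x + t` over `ℂ` to the complex hypersurface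
`G_0 w ^ n + G_1 v ^ n = 0`, that is, every point of the hypersurface over the function field `F` of the
elliptic curve, is constant after the projection to `A`: the coordinates `V i` are proportional to
complex numbers. This is the case if the hypersurface is groupless. -/
def NoEllipticCurves {r : ℕ} (n : ℕ) (a b : Fin r → ℤ)
    (G : Fin 2 → MvPolynomial (Fin r × Fin 3) ℂ) : Prop :=
  ∀ s t : ℂ, 4 * s ^ 3 + 27 * t ^ 2 ≠ 0 → ∀ (F : Type) [Field F] [Algebra ℂ F] (x y : F),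
    y ^ 2 = x ^ 3 + algebraMap ℂ F s * x + algebraMap ℂ F t → Transcendental ℂ x →
    IntermediateField.adjoin ℂ {x, y} = ⊤ →
    ∀ V : Fin r → Fin 3 → F, (∀ i, V i ≠ 0 ∧
      V i 1 ^ 2 * V i 2 = V i 0 ^ 3 + (a i : F) * V i 0 * V i 2 ^ 2 + (b i : F) * V i 2 ^ 3) →
    HasPoint n (fun k => MvPolynomial.map (algebraMap ℂ F) (G k)) V →
    ∀ i, ∃ (g : F) (γ : Fin 3 → ℂ), ∀ k, V i k = g * algebraMap ℂ F (γ k)

/-- For all hypersurfaces `G` of degrees `c, d` over `K` outside of `Z`, whose coefficients have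
heights at most `B ^ u`: of the tuples `P` of points of the subgroups `Γ_i` of `E_i(K)` with heights at
most `B`, which are finite in number, at most a proportion of `C B ^ (-e)` is such that the
hypersurface has a `K`-point over `P`. The constant `C` does not depend on `G`. -/
def UniformSaving (K : Type) [Field K] [NumberField K] [DecidableEq K] {r : ℕ} (n : ℕ)
    (a b : Fin r → ℤ) (c d : Fin r → ℕ)
    (Z : Finset (MvPolynomial (Fin 2 × (Fin r × Fin 3 →₀ ℕ)) ℤ))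
    (Γ : ∀ i, AddSubgroup (E K (a i) (b i))) (e u : ℝ) : Prop :=
  ∃ C : ℝ, 0 < C ∧ ∀ B : ℝ, 1 ≤ B →
    {P : ∀ i, E K (a i) (b i) | ∀ i, P i ∈ Γ i ∧ ht (P i) ≤ B}.Finite ∧
    ∀ G : Fin 2 → MvPolynomial (Fin r × Fin 3) K, Multihomogeneous n G c d →
      (∀ k μ, Height.logHeight₁ ((G k).coeff μ) ≤ B ^ u) → Off Z G →
      ({P : ∀ i, E K (a i) (b i) | (∀ i, P i ∈ Γ i ∧ ht (P i) ≤ B) ∧
        HasPoint n G (fun i => xyz (P i))}.ncard : ℝ) ≤
      C * (B ^ (-e) *
        ({P : ∀ i, E K (a i) (b i) | ∀ i, P i ∈ Γ i ∧ ht (P i) ≤ B}.ncard : ℝ))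

theorem disc_of {r : ℕ} {a b : Fin r → ℤ} (hE : ∀ i, 4 * a i ^ 3 + 27 * b i ^ 2 ≠ 0) :
    ∀ i, Pool.Agent.H901R3.MS.Disc (a i : ℚ) (b i : ℚ) := by
  intro i h0
  apply hE i
  have h1 : (4 * (a i : ℚ) ^ 3 + 27 * (b i : ℚ) ^ 2) = 0 := by
    rcases mul_eq_zero.1 h0 with h | h
    · norm_num at h
    · exact h
  exact_mod_cast h1

theorem MHP_iff {r : ℕ} {R : Type} [CommRing R] (n : ℕ)
    (G : Fin 2 → MvPolynomial (Fin r × Fin 3) R) (c d : Fin r → ℕ) :
    Multihomogeneous n G c d ↔ Pool.Agent.K9h5.W.MHP (n := 1) G (fun i => n * c i) d := by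
  constructor
  · intro h k i
    have h1 := h i
    match k with
    | 0 =>
      have h2 : d i + ((0 : Fin (1 + 1)) : ℕ) * (n * c i) = d i := by simp
      rw [h2]
      exact h1.1
    | 1 =>
      have h2 : d i + ((1 : Fin (1 + 1)) : ℕ) * (n * c i) = d i + n * c i := by simp
      rw [h2]
      exact h1.2
  · intro h i
    have h0 := h 0 i
    have h1 := h 1 i
    have e0 : d i + ((0 : Fin (1 + 1)) : ℕ) * (n * c i) = d i := by simp
    have e1 : d i + ((1 : Fin (1 + 1)) : ℕ) * (n * c i) = d i + n * c i := by simp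
    rw [e0] at h0
    rw [e1] at h1
    exact ⟨h0, h1⟩

theorem ht_eq {K : Type} [Field K] [NumberField K] {a b : ℤ} (P : E K a b) :
    ht P = Pool.Agent.K9h5.N.hK (a := (a : K)) (b := (b : K)) P := by
  cases P with
  | zero => exact Pool.Agent.K9h5.N.hK_zero.symm
  | some x y h => exact (Pool.Agent.K9h5.N.hK_some x y h).symm

theorem xyz_eq {K : Type} [Field K] {a b : ℤ} (P : E K a b) :
    xyz P = Pool.Agent.H901R3.MS.rep (a := (a : K)) (b := (b : K)) P := by
  funext k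
  cases P <;> rfl

/-- a point gives an `l`-th root of the radicand -/
theorem root_of {K : Type} [Field K] {n l : ℕ} (hn : 2 ≤ n) (hln : l ∣ n) (g₀ g₁ w v : K)
    (hwv : w ≠ 0 ∨ v ≠ 0) (h : g₀ * w ^ n + g₁ * v ^ n = 0) :
    ∃ x : K, x ^ l = -(g₁ * g₀ ^ (n - 1)) := by
  obtain ⟨q, hq⟩ := hln
  have hl : ∀ x : K, (x ^ q) ^ l = x ^ n := by
    intro x
    rw [← pow_mul, hq, mul_comm]
  by_cases hv : v = 0
  · have hw : w ≠ 0 := by
      rcases hwv with h1 | h1
      · exact h1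
      · exact absurd hv h1
    have h0 : g₀ = 0 := by
      rw [hv, zero_pow (by omega), mul_zero, add_zero] at h
      exact (mul_eq_zero.1 h).resolve_right (pow_ne_zero _ hw)
    refine ⟨0 ^ q, ?_⟩
    rw [hl, h0, zero_pow (by omega : n ≠ 0), zero_pow (by omega : n - 1 ≠ 0), mul_zero, neg_zero]
  · refine ⟨(g₀ * (w / v)) ^ q, ?_⟩
    rw [hl, mul_pow, div_pow]
    have e1 : g₀ ^ n = g₀ ^ (n - 1) * g₀ := by rw [← pow_succ]; congr 1; omega
    have hvn : v ^ n ≠ 0 := pow_ne_zero _ hv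
    rw [e1]
    have h2 : g₀ * w ^ n = -(g₁ * v ^ n) := by linear_combination h
    calc g₀ ^ (n - 1) * g₀ * (w ^ n / v ^ n) = g₀ ^ (n - 1) * (g₀ * w ^ n) / v ^ n := by ring
      _ = g₀ ^ (n - 1) * (-(g₁ * v ^ n)) / v ^ n := by rw [h2]
      _ = -(g₁ * g₀ ^ (n - 1)) := by field_simp

/-- comparison of the two forms of the counting functions -/
theorem image_eq {K : Type} [Field K] [NumberField K] [DecidableEq K] {r : ℕ} (a b : Fin r → ℤ)
    (Γ : ∀ i, AddSubgroup (E K (a i) (b i))) (B : ℝ) :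
    {P : ∀ i, E K (a i) (b i) | ∀ i, P i ∈ Γ i ∧ ht (P i) ≤ B} =
      (fun (P : ∀ i, Γ i) (i : Fin r) => (P i : E K (a i) (b i))) ''
        Pool.Agent.K9h5.N.ABg (fun i (P : Γ i) =>
          Pool.Agent.K9h5.N.hK (a := (a i : K)) (b := (b i : K)) (P : E K (a i) (b i))) B := by
  ext P
  rw [Set.mem_setOf_eq, Set.mem_image]
  constructor
  · intro h
    refine ⟨fun i => ⟨P i, (h i).1⟩, fun i => ?_, rfl⟩
    have h1 := (h i).2
    rw [ht_eq] at h1
    exact h1
  · rintro ⟨Q, hQ, rfl⟩ i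
    refine ⟨(Q i).2, ?_⟩
    rw [ht_eq]
    exact hQ i

theorem inj_sub {K : Type} [Field K] [NumberField K] [DecidableEq K] {r : ℕ} (a b : Fin r → ℤ)
    (Γ : ∀ i, AddSubgroup (E K (a i) (b i))) :
    Function.Injective (fun (P : ∀ i, Γ i) (i : Fin r) => (P i : E K (a i) (b i))) := by
  intro P Q h
  funext i
  exact Subtype.ext (congrFun h i)

theorem exc_sub {K : Type} [Field K] [NumberField K] [DecidableEq K] {r n l : ℕ} (hn : 2 ≤ n)
    (hln : l ∣ n) (a b : Fin r → ℤ) (Γ : ∀ i, AddSubgroup (E K (a i) (b i)))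
    (G : Fin 2 → MvPolynomial (Fin r × Fin 3) K) (B : ℝ) :
    {P : ∀ i, E K (a i) (b i) | (∀ i, P i ∈ Γ i ∧ ht (P i) ≤ B) ∧
        HasPoint n G (fun i => xyz (P i))} ⊆
      (fun (P : ∀ i, Γ i) (i : Fin r) => (P i : E K (a i) (b i))) ''
        Pool.Agent.K9h5.C.ExcH K n l a b Γ G B := by
  rintro P ⟨hP, w, v, hwv, h⟩
  refine ⟨fun i => ⟨P i, (hP i).1⟩, ⟨fun i => ?_, ?_⟩, rfl⟩
  · have h1 := (hP i).2
    rw [ht_eq] at h1
    exact h1
  · obtain ⟨x, hx⟩ := root_of hn hln _ _ w v hwv h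
    refine ⟨x, ?_⟩
    rw [hx]
    unfold Pool.Agent.K9h5.C.rad
    simp only [xyz_eq, MvPolynomial.aeval_eq_eval]
    rw [map_neg, map_mul, map_pow]

/-- the bounds for all hypersurfaces -/
theorem all_fields (r : ℕ) (a b : Fin r → ℤ) (hE : ∀ i, 4 * a i ^ 3 + 27 * b i ^ 2 ≠ 0)
    (n : ℕ) (hn : 2 ≤ n) (c d : Fin r → ℕ) (hcd : ∃ j, 1 ≤ c j + d j) :
    ∃ Z : Finset (MvPolynomial (Fin 2 × (Fin r × Fin 3 →₀ ℕ)) ℤ),
      (∃ G : Fin 2 → MvPolynomial (Fin r × Fin 3) ℂ, Multihomogeneous n G c d ∧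
        (d = 0 → G 0 = 1) ∧ Off Z G) ∧
      (∀ G : Fin 2 → MvPolynomial (Fin r × Fin 3) ℂ, Multihomogeneous n G c d →
        (∃ j, Ramified n a b G j) → Off Z G) ∧
      ∀ (K : Type) [Field K] [NumberField K] [DecidableEq K]
        (Γ : ∀ i, AddSubgroup (E K (a i) (b i))) (R : ℕ),
        (∀ i, R ≤ Module.finrank ℤ (Γ i)) →
          UniformSaving K n a b c d Z Γ (49 / 1000 * (R : ℝ) - 1) (3 / 10 * (R : ℝ)) := by
  classical
  have hD := disc_of hE
  have hun : ∀ x : Fin r × n.primeFactors,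
      ∃ Z : Finset (MvPolynomial (Pool.Agent.K9h5.W.IxP r 1) ℤ),
      (∀ G : Fin (1 + 1) → MvPolynomial (Fin r × Fin 3) ℂ,
        Pool.Agent.K9h5.W.MHP G (fun i => n * c i) d →
        Pool.Agent.K9h5.C.RamC n (x.2 : ℕ) a b G x.1 →
        ∃ φ ∈ Z, MvPolynomial.aeval (Pool.Agent.K9h5.W.coP G) φ ≠ 0) ∧
      ∀ φ ∈ Z, Pool.Agent.K9h5.C.SavC n (x.2 : ℕ) a b c d x.1 φ := by
    intro x
    have h1 := Nat.mem_primeFactors.1 x.2.2
    exact Pool.Agent.K9h5.C.univC_fam (by omega) h1.1 h1.2.1 a b hD c d x.1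
  choose Zl hZ1 hZ2 using hun
  obtain ⟨Z, hZ⟩ : ∃ Z : Finset (MvPolynomial (Fin 2 × (Fin r × Fin 3 →₀ ℕ)) ℤ),
      Z = Finset.univ.biUnion Zl := ⟨_, rfl⟩
  have hoff : ∀ G : Fin 2 → MvPolynomial (Fin r × Fin 3) ℂ, Multihomogeneous n G c d →
      ∀ (j : Fin r) (l : ℕ), l.Prime → l ∣ n → Pool.Agent.K9h5.C.RamC n l a b G j → Off Z G := by
    intro G hG j l hl hln hR
    have hmem : l ∈ n.primeFactors := Nat.mem_primeFactors.2 ⟨hl, hln, by omega⟩
    obtain ⟨φ, hφ, h⟩ := hZ1 (j, ⟨l, hmem⟩) G ((MHP_iff n G c d).1 hG) hR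
    refine ⟨φ, ?_, h⟩
    rw [hZ]
    exact Finset.mem_biUnion.2 ⟨(j, ⟨l, hmem⟩), Finset.mem_univ _, hφ⟩
  obtain ⟨j₀, hj₀⟩ := hcd
  have hex : ∃ G : Fin 2 → MvPolynomial (Fin r × Fin 3) ℂ, Multihomogeneous n G c d ∧
      (d = 0 → G 0 = 1) ∧ Off Z G := by
    obtain ⟨G, hG, hG1, hR⟩ := Pool.Agent.K9h5.C.exists_RamC (n := n) (by omega) a b c d j₀ hj₀
    have hG' := (MHP_iff n G c d).2 hG
    refine ⟨G, hG', hG1, hoff G hG' j₀ n.minFac (Nat.minFac_prime (by omega)) (Nat.minFac_dvd n)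
      (hR _ (Nat.minFac_prime (by omega)))⟩
  refine ⟨Z, hex, ?_, ?_⟩
  · rintro G hG ⟨j, V, W, m, l, haff, hW0, hWE, hord, hl, hln, hlm⟩
    refine hoff G hG j l hl hln ⟨V, W, m, haff, hW0, hWE, ?_, hlm⟩
    rw [← hord]
    unfold Pool.Agent.K9h5.C.rad
    rw [MvPolynomial.eval₂_neg, PowerSeries.order_neg]
    rfl
  intro K _ _ _ Γ R hR
  have hbig : ∀ φ ∈ Z, ∃ l : ℕ, l ∣ n ∧ ∃ j, Pool.Agent.K9h5.C.SavC n l a b c d j φ := by
    intro φ hφ
    rw [hZ] at hφ
    obtain ⟨x, _, hx⟩ := Finset.mem_biUnion.1 hφ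
    exact ⟨x.2, (Nat.mem_primeFactors.1 x.2.2).2.1, x.1, hZ2 x φ hx⟩
  choose! lf hlf jf hsav using hbig
  obtain ⟨C, hC⟩ : ∃ C : MvPolynomial (Fin 2 × (Fin r × Fin 3 →₀ ℕ)) ℤ → ℝ, ∀ φ ∈ Z,
      0 < C φ ∧ ∀ B : ℝ, 1 ≤ B → (Pool.Agent.K9h5.N.ABg (fun i (P : Γ i) =>
        Pool.Agent.K9h5.N.hK (a := (a i : K)) (b := (b i : K)) (P : E K (a i) (b i))) B).Finite ∧
        ∀ G : Fin (1 + 1) → MvPolynomial (Fin r × Fin 3) K,
          Pool.Agent.K9h5.W.MHP G (fun i => n * c i) d →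
          (∀ x, Height.logHeight₁ (Pool.Agent.K9h5.W.coP G x) ≤ B ^ (3 / 10 * (R : ℝ))) →
          MvPolynomial.aeval (Pool.Agent.K9h5.W.coP G) φ ≠ 0 →
          ((Pool.Agent.K9h5.C.ExcH K n (lf φ) a b Γ G B).ncard : ℝ) ≤
          C φ * (B ^ ((2 - 98 / 1000 * (R : ℝ)) / 2) *
            ((Pool.Agent.K9h5.N.ABg (fun i (P : Γ i) =>
            Pool.Agent.K9h5.N.hK (a := (a i : K)) (b := (b i : K)) (P : E K (a i) (b i)))
              B).ncard : ℝ)) := by
    refine ⟨fun φ => if h : φ ∈ Z then ((hsav φ h K Γ).1 R hR).choose else 0, fun φ hφ => ?_⟩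
    have h5 := ((hsav φ hφ K Γ).1 R hR).choose_spec
    simp only [dif_pos hφ]
    exact h5
  have hZne : Z.Nonempty := by
    obtain ⟨G, _, _, φ, hφ, _⟩ := hex
    exact ⟨φ, hφ⟩
  refine ⟨∑ φ ∈ Z, C φ, Finset.sum_pos (fun φ hφ => (hC φ hφ).1) hZne, ?_⟩
  intro B hB
  have hinj := inj_sub a b Γ
  have e3 : -(49 / 1000 * (R : ℝ) - 1) = (2 - 98 / 1000 * (R : ℝ)) / 2 := by ring
  rw [image_eq, Set.ncard_image_of_injective _ hinj, e3]
  constructor
  · obtain ⟨φ, hφ⟩ := hZne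
    exact ((hC φ hφ).2 B hB).1.image _
  · rintro G hG hh ⟨φ, hφ, hne⟩
    have hfin := ((hC φ hφ).2 B hB).1
    have hfin2 : (Pool.Agent.K9h5.C.ExcH K n (lf φ) a b Γ G B).Finite :=
      hfin.subset (fun P hP => hP.1)
    refine le_trans (Nat.cast_le.2 (Set.ncard_le_ncard (exc_sub hn (hlf φ hφ) a b Γ G B)
      (hfin2.image _))) ?_
    refine le_trans (le_of_eq (congrArg _ (Set.ncard_image_of_injective _ hinj))) ?_
    refine (((hC φ hφ).2 B hB).2 G ((MHP_iff n G c d).1 hG) (fun x => hh x.1 x.2) hne).trans ?_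
    refine mul_le_mul_of_nonneg_right ?_ (by positivity)
    exact Finset.single_le_sum (f := C) (fun φ hφ => (hC φ hφ).1.le) hφ

theorem saving_mono {K : Type} [Field K] [NumberField K] [DecidableEq K] {r n : ℕ}
    {a b : Fin r → ℤ} {c d : Fin r → ℕ} {Z : Finset (MvPolynomial (Fin 2 × (Fin r × Fin 3 →₀ ℕ)) ℤ)}
    {Γ : ∀ i, AddSubgroup (E K (a i) (b i))}
    {e e' u u' : ℝ} (h : UniformSaving K n a b c d Z Γ e u) (he : e' ≤ e) (hu : u' ≤ u) :
    UniformSaving K n a b c d Z Γ e' u' := by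
  obtain ⟨C, hC, hB⟩ := h
  refine ⟨C, hC, fun B hB1 => ⟨(hB B hB1).1, fun G hG hh hO => ((hB B hB1).2 G hG (fun k μ =>
    (hh k μ).trans (Real.rpow_le_rpow_of_exponent_le hB1 hu)) hO).trans ?_⟩⟩
  refine mul_le_mul_of_nonneg_left ?_ hC.le
  refine mul_le_mul_of_nonneg_right ?_ (Nat.cast_nonneg _)
  exact Real.rpow_le_rpow_of_exponent_le hB1 (by linarith)

/-- a hypersurface without elliptic curves is ramified in each direction -/
theorem ramified_of {r : ℕ} (a b : Fin r → ℤ) (hE : ∀ i, 4 * a i ^ 3 + 27 * b i ^ 2 ≠ 0) (n : ℕ)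
    (hn : 2 ≤ n) (hsq : Squarefree n) (G : Fin 2 → MvPolynomial (Fin r × Fin 3) ℂ)
    (hG : NoEllipticCurves n a b G) (j : Fin r) : Ramified n a b G j := by
  classical
  have hD := disc_of hE
  obtain ⟨S, hS⟩ := Pool.Agent.K9h5.G.exists_inf (a j) (b j) (hD j)
  have hG' : Pool.Agent.K9h5.G.NoEll n (fun i => (a i : ℂ)) (fun i => (b i : ℂ)) G := by
    intro s t hst F _ _ x y hxy hx hadj V w v hV hwv h0
    refine hG s t hst F x y hxy hx hadj V (fun i => ⟨(hV i).1, ?_⟩) ⟨w, v, hwv, ?_⟩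
    · have h1 := (hV i).2
      rw [map_intCast, map_intCast] at h1
      exact h1
    · rw [MvPolynomial.aeval_map_algebraMap, MvPolynomial.aeval_map_algebraMap]
      exact h0
  obtain ⟨V, X', Y', m, l, hV, h, hord, hl, hln, hlm⟩ := Pool.Agent.K9h5.G.ram_gen (by omega : 1 ≤ n)
    hsq (fun i => (a i : ℂ)) (fun i => (b i : ℂ)) G hG' j
    (Pool.Agent.K9h5.N.disc_int (a j) (b j) (hD j)) S hS
  refine ⟨V, ![X', Y', 1], m, l, fun i _ => hV i, fun h0 => one_ne_zero (congrFun h0 2),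
    Pool.Agent.K9h5.G.eqn_triple h (map_intCast _ _) (map_intCast _ _), ?_, hl, hln, hlm⟩
  rw [← hord]
  rfl

/-- **Rational points on groupless covers of products of elliptic curves over all number fields.** -/
theorem result (r : ℕ) (a b : Fin r → ℤ) (hE : ∀ i, 4 * a i ^ 3 + 27 * b i ^ 2 ≠ 0) :
    ∃ (κ : ℕ → Type) (_ : ∀ M, Field (κ M)) (_ : ∀ M, NumberField (κ M)),
      ∀ (n : ℕ) (c d : Fin r → ℕ), 2 ≤ n → (∃ j, 1 ≤ c j + d j) →
        ∃ Z : Finset (MvPolynomial (Fin 2 × (Fin r × Fin 3 →₀ ℕ)) ℤ),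
          (∃ G : Fin 2 → MvPolynomial (Fin r × Fin 3) ℂ, Multihomogeneous n G c d ∧
            (d = 0 → G 0 = 1) ∧ Off Z G) ∧
          (∀ G : Fin 2 → MvPolynomial (Fin r × Fin 3) ℂ, Multihomogeneous n G c d →
            (∃ j, Ramified n a b G j) ∨ (Squarefree n ∧ NoEllipticCurves n a b G) → Off Z G) ∧
          (∀ (K : Type) [Field K] [NumberField K] [DecidableEq K]
            (Γ : ∀ i, AddSubgroup (E K (a i) (b i))) (R : ℕ),
            (∀ i, R ≤ Module.finrank ℤ (Γ i)) →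
              UniformSaving K n a b c d Z Γ (49 / 1000 * (R : ℝ) - 1) (3 / 10 * (R : ℝ))) ∧
          (∀ (M : ℕ) (K : Type) [Field K] [NumberField K] [DecidableEq K] [Algebra (κ M) K],
            UniformSaving K n a b c d Z (fun _ => ⊤) M M) := by
  have hD := disc_of hE
  choose κ iF iN hκ using fun M : ℕ => Pool.Agent.K9h5.N.exists_rank a b hD (21 * M + 21)
  refine ⟨κ, iF, iN, ?_⟩
  intro n c d hn hcd
  obtain ⟨Z, hex, hsb, hmain⟩ := all_fields r a b hE n hn c d hcd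
  refine ⟨Z, hex, ?_, hmain, ?_⟩
  · rintro G hG (h | ⟨hsq, hN⟩)
    · exact hsb G hG h
    · obtain ⟨j, _⟩ := hcd
      exact hsb G hG ⟨j, ramified_of a b hE n hn hsq G hN j⟩
  intro M K _ _ _ _
  have hrk : ∀ i, 21 * M + 21 ≤ Module.finrank ℤ (⊤ : AddSubgroup (E K (a i) (b i))) := by
    intro i
    refine ((hκ M i).trans (Pool.Agent.K9h5.N.rkE_mono (algebraMap (κ M) K) _ _ (hD i))).trans ?_
    rw [← Pool.Agent.K9h5.N.rkE_eq K (a i) (b i)]
    exact ((AddSubgroup.topEquiv (G := E K (a i) (b i))).toIntLinearEquiv.finrank_eq).symm.le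
  have h0 : (0 : ℝ) ≤ M := Nat.cast_nonneg _
  refine saving_mono (hmain K (fun _ => ⊤) (21 * M + 21) hrk) ?_ ?_
  · push_cast
    linarith
  · push_cast
    linarith

end Pool.Agent.Results.MP_c7af3c_ag.GrouplessCoversAllFields
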