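import Pool.Agent.K9h33.SYM.Fin

/-!
MP_c7af3c_ag, Q1: all projective varieties which are finite over a symmetric power of a generic complete
intersection are groupless and arithmetically hyperbolic.

Let `K` be an algebraically closed field of characteristic `0`, and let `k` be a field contained in
`K`, with algebraic closure `k'` in `K`. A *generic complete intersection* `X` (`GenericCI k K`, in
`Pool/Agent/N111/GI/Maps.lean`) is the intersection of a closed subset `V` of a projective space,
defined over `k'`, of dimension at most `m`, and of hypersurfaces `F a = 0` of degrees `d a`, where
the ratios of the coefficients of `F a` to one of them are, for all `a` together, algebraically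
independent over `k`. Let `S` be the sum of the numbers `d a + 1`.

Let `Z` be a closed subset of a projective space over `K` (not necessarily irreducible or smooth),
given by the set `Φ` of forms. We consider the closed correspondences `Γ` in `Z × X` (`SymCor`, in
`Pool/Agent/N95/RF/Cor.lean`), given by bihomogeneous polynomials, such that, for all points `z` of `Z`
over all algebraically closed extensions `Ω` of `K`, the set `Γ_z` of the points `x` of `X` with
`(z, x)` in `Γ` has at least one and at most `r` elements, and `z` is defined over each algebraically
closed field between `K` and `Ω` over which all points in `Γ_z` are defined. For instance, if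
`g : Z → Sym^r X` is a finite morphism, then the set of the pairs `(z, x)` with `x` in the support of
the cycle `g z` is such a correspondence. So `Z` can be the symmetric power `Sym^r X`, all its closed
subsets, and all projective varieties with a finite morphism to `Sym^r X`: the quotients `X ^ r / G` for
the groups `G` of permutations of the factors, their finite covers, and all closed subsets of these.

A morphism to `Z` from a smooth projective curve is given by a point `f` of `Z` over the function
field `E` of the curve, `pht K f` is its degree (the degree of the pullback of `O(1)`), and
`canDeg K E = 2 g - 2`, where `g` is the genus of the curve.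

An algebraically hyperbolic variety is groupless: a nonconstant morphism from an abelian variety is
nonconstant on some smooth projective curve that is mapped to the abelian variety, and the
multiplications by the natural numbers give morphisms of unbounded degree from this curve. The points
of a model of `Z` over a finitely generated ring `A` are points of `Z` over the field generated over
`k'` by finitely many elements. The points of `Sym^r X` over a field are the effective cycles of degree
`r` over this field: so (1) says, for `Z = Sym^r X`, that there are only finitely many points of `X` of
degree at most `r` over each of these fields.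
-/

set_option autoImplicit false
set_option linter.overlappingInstances false

namespace Pool.Agent.Results.MP_c7af3c_ag.SymmetricPowers

open MvPolynomial FF Pool.Agent.W603.LV Pool.Agent.W603.PV LinearAlgebra.Projectivization
open Pool.Agent.N111.GI (GenericCI)
open Pool.Agent.N95.GH (OnSet)
open Pool.Agent.N95.RF (SymCor)

/-- Let `Z = {Φ = 0}` have a closed correspondence as above to a generic complete intersection `X`, for
instance a finite morphism to `Sym^r X`, `r ≥ 1`, and suppose that `S ≥ 2 m + 1 + r`. Then

(1) `Z` has only finitely many points over each field generated over `k'` by finitely many elements
of `K`, so `Z` is arithmetically hyperbolic;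

(2) there is a constant `A` such that, for all smooth projective curves `C`, all morphisms from `C`
to `Z` have degree at most `A max (2 g (C) - 2, 0)`, so `Z` is algebraically hyperbolic, hence
groupless. -/
theorem result {k K : Type} [Field k] [Field K] [IsAlgClosed K] [CharZero K] [Algebra k K]
    {M : ℕ} {Φ : Set (MvPolynomial (Fin (M + 1)) K)} (hΦ : ∀ f ∈ Φ, ∃ e, f.IsHomogeneous e)
    {X : GenericCI k K} {r : ℕ} (C : SymCor Φ X r) (hr : 1 ≤ r)
    (hS : 2 * X.m + 1 + r ≤ ∑ a, (X.d a + 1)) :
    (∀ T : Finset K, {p : ℙ K (Fin (M + 1) → K) | ∃ (z : Fin (M + 1) → K) (hz : z ≠ 0),
      p = Projectivization.mk K z hz ∧ (∀ f ∈ Φ, aeval z f = 0) ∧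
      ∀ i, z i ∈ IntermediateField.adjoin (algebraicClosure k K) (T : Set K)}.Finite) ∧
    ∃ A : ℕ, ∀ (E : Type) [Field E] [Algebra K E] [IsFF K E] (f : Fin (M + 1) → E), OnSet Φ f →
      pht K f ≤ A * max (canDeg K E) 0 := by
  refine ⟨K9h33.SYM.fin_points C hΦ hS, ?_⟩
  obtain ⟨A, hA⟩ := C.cover (ρ := 1) hΦ (by omega) (by omega)
  exact ⟨A, fun E _ _ _ f hf => hA E E (by rw [Module.finrank_self]) f hf⟩

end Pool.Agent.Results.MP_c7af3c_ag.SymmetricPowers
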